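import Mathlib
import Pool.Agent.H.MP_07f7bf_an.Main

set_option autoImplicit false

namespace Pool.Agent.Results.MP_07f7bf_an.Counter

section
variable {X : Type} [NormedAddCommGroup X] [NormedSpace ℝ X]

def InPi (x : X) (φ : X →L[ℝ] ℝ) : Prop := ‖x‖ = 1 ∧ ‖φ‖ = 1 ∧ φ x = 1

def SupNormOne (P : X → X) : Prop := (∀ x, ‖x‖ ≤ 1 → ‖P x‖ ≤ 1) ∧ ∃ x, ‖x‖ ≤ 1 ∧ ‖P x‖ = 1

def RadiusZero (P : X → X) : Prop := ∀ x φ, InPi x φ → φ (P x) = 0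

def RadiusGe (P : X → X) (c : ℝ) : Prop := ∃ x φ, InPi x φ ∧ c ≤ |φ (P x)|

end

theorem result : ∃ (X : Type) (_ : NormedAddCommGroup X) (_ : NormedSpace ℝ X),
    FiniteDimensional ℝ X ∧ CompleteSpace X ∧ Nontrivial X ∧
      (∃ B : X →L[ℝ] X →L[ℝ] X, SupNormOne (fun x => B x x) ∧ RadiusZero fun x => B x x) ∧
      ∃ c > 0, ∀ T : X →L[ℝ] X, ‖T‖ = 1 → RadiusGe T c := by
  obtain ⟨B, h1, h2, h3⟩ := Pool.Agent.H.MP_07f7bf_an.quad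
  obtain ⟨c, h4, h5⟩ := Pool.Agent.H.MP_07f7bf_an.lin
  refine ⟨Pool.Agent.H.MP_07f7bf_an.X, inferInstance, inferInstance, inferInstance,
    FiniteDimensional.complete ℝ _, inferInstance,
    ⟨B, ⟨h1, h2⟩, fun x φ h => h3 x φ h.1 h.2.1 h.2.2⟩, c, h4, fun T hT => ?_⟩
  obtain ⟨x, φ, a, b, d, e⟩ := h5 T hT
  exact ⟨x, φ, ⟨a, b, d⟩, e⟩

end Pool.Agent.Results.MP_07f7bf_an.Counter
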